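import Pool.Agent.helper37.ND.Spec

/-!
# Row GOU of theorem ND (MP_baa4d7_al): characters outside of `GS L`
-/

set_option autoImplicit false

namespace Pool.Agent.ND

open Pool.Agent.helper58.DC Pool.Agent.DI Pool.Agent.GR Pool.Agent.OB Pool.Agent.DR Pool.Agent.FI Pool.Agent.FI3 Pool.Agent.FI4 Pool.Agent.FI4I Pool.Agent.LE Pool.Agent.L5 Pool.Agent.NAB

theorem GOU (hGGR : GGR_stmt) (hGUC : GUC_stmt) (hGBC : GBC_stmt) (hB3 : Pool.Agent.DI.B3_stmt) (hB2 : Pool.Agent.DI.B2_stmt)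
    (hQRS : QRS_stmt) (hGST : GST_stmt) : GOU_stmt := by
  intro p e m t M hset G _ _ χ Z z x hZD L hL ψ hψ hψn θ hθ θ' hθθ'
  have hem : m + 3 ≤ e := by
    have := hZD.em
    omega
  obtain ⟨hBC, -, -, -⟩ := hGBC p e m M hset hem G χ L Z
  set T : Set (G → ℂ) := {φ | φ ∈ IrrOn L ∧ φ ∉ GS p e m M χ L Z} with hT
  have hTBC : BC M L T := by
    refine ⟨fun φ hφ => hφ.1, ?_⟩
    rintro φ ⟨h1, h2⟩ φ' h3 h4
    refine ⟨h3, fun h5 => h2 (hBC.closed φ' h5 φ h1 ?_)⟩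
    exact SB.symm (show SB M L φ φ' from h4)
  have hno : ¬ ∃ φ ∈ T, SB M L θ φ := by
    rintro ⟨φ, ⟨h1, h2⟩, h3⟩
    obtain ⟨ψ₀, h4, h5⟩ := hGUC p e m t M hset G χ Z z x hZD L hL θ hθ
    exact h2 (hBC.closed ψ₀ h4 φ h1 (h5.symm.trans h3))
  have hsum := (hGGR p e m t M hset G χ Z z x hZD L hL T hTBC θ hθ θ' hθθ' θ hθ θ' hθθ').2 hno
  have hθi : θ ∈ IrrOn (cz Z) := hθ.1
  have hθi' : θ' ∈ IrrOn (cz Z) := by
    obtain ⟨ν, rfl⟩ := hθθ'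
    exact (hGST p e m t M hset G χ Z z x hZD θ hθ ν).1.1
  have hfin : T.Finite := (hB2 G L).1.subset fun φ hφ => hφ.1
  rw [finsum_mem_eq_finite_toFinset_sum _ hfin] at hsum
  have hreal : ∀ φ ∈ hfin.toFinset, (mt (cz Z) φ θ - mt (cz Z) φ θ') * (mt (cz Z) φ θ - mt (cz Z) φ θ') =
      ((((mt (cz Z) φ θ - mt (cz Z) φ θ').re) ^ 2 : ℝ) : ℂ) := by
    intro φ hφ
    rw [Set.Finite.mem_toFinset] at hφ
    obtain ⟨n, hn⟩ := (hQRS G L (cz Z) hL φ hφ.1).1 θ hθi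
    obtain ⟨n', hn'⟩ := (hQRS G L (cz Z) hL φ hφ.1).1 θ' hθi'
    rw [hn, hn']
    have e1 : ((n : ℂ) - n').re = (n : ℝ) - n' := by simp
    rw [e1]
    push_cast
    ring
  rw [Finset.sum_congr rfl hreal, ← Complex.ofReal_sum, Complex.ofReal_eq_zero,
    Finset.sum_eq_zero_iff_of_nonneg fun _ _ => sq_nonneg _] at hsum
  have hψT : ψ ∈ hfin.toFinset := by
    rw [Set.Finite.mem_toFinset]
    exact ⟨hψ, hψn⟩
  have h1 := hreal ψ hψT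
  rw [hsum ψ hψT, Complex.ofReal_zero, mul_self_eq_zero] at h1
  exact sub_eq_zero.1 h1

end Pool.Agent.ND
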